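import Pool.Agent.H164.Cyc2
import Pool.Agent.Helper903.ES.Main

set_option autoImplicit false

namespace Pool.Agent.Results.MP_0e31aa_co.TreeOddCycle

open Finset SimpleGraph H164

/-- Every red/blue colouring of the edges of the complete graph on `N` vertices (the red graph is
`red`, the blue graph its complement) has a red copy of `T` or a blue cycle on `m` vertices. -/
def Arrows {n : ℕ} (T : SimpleGraph (Fin n)) (m N : ℕ) : Prop :=
  ∀ red : SimpleGraph (Fin N), T.IsContained red ∨ (cycleGraph m).IsContained redᶜ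

theorem IsC.contained {V : Type*} {G : SimpleGraph V} {S : Finset V} {p : ℕ → V} {m : ℕ}
    (h : IsC G S p m) : (cycleGraph m).IsContained G := by
  have h3 := h.three
  have key : ∀ u v : Fin m, (v - u).val = 1 → G.Adj (p u.val) (p v.val) := by
    intro u v huv
    have hu := u.isLt
    have hv := v.isLt
    rw [Fin.sub_def] at huv
    simp only at huv
    by_cases h1 : u.val ≤ v.val
    · have e : m - u.val + v.val = m + (v.val - u.val) := by omega
      rw [e, Nat.add_mod_left, Nat.mod_eq_of_lt (by omega)] at huv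
      have : v.val = u.val + 1 := by omega
      rw [this]; exact h.adj _ (by omega)
    · rw [Nat.mod_eq_of_lt (by omega)] at huv
      have e1 : u.val = m - 1 := by omega
      have e2 : v.val = 0 := by omega
      rw [e1, e2]; exact h.close
  refine ⟨⟨⟨fun i => p i.val, ?_⟩, ?_⟩⟩
  · intro u v huv
    rw [cycleGraph_adj'] at huv
    rcases huv with h1 | h1
    · exact (key _ _ h1).symm
    · exact key _ _ h1
  · intro u v huv
    exact Fin.ext (h.inj _ u.isLt _ v.isLt huv)

/-- dense graphs on `2 n - 1` vertices have all cycles of length `3, …, n + 1` -/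
theorem dense {V : Type*} [Fintype V] [DecidableEq V] (G : SimpleGraph V) [DecidableRel G.Adj]
    (n : ℕ) (hn : 2 ≤ n) (hV : Fintype.card V = 2 * n - 1)
    (he : n * (2 * n - 1) ≤ ∑ v, dg G univ v) (m : ℕ) (hm : 3 ≤ m) (hmn : m ≤ n + 1) :
    ∃ f, IsC G univ f m := by
  have hVc : (univ : Finset V).card = 2 * n - 1 := by rw [Finset.card_univ, hV]
  have hne : (univ : Finset V).Nonempty := by rw [← Finset.card_pos]; omega
  have hkey : ∀ c, 2 ≤ c → (∀ f k, IsC G univ f k → k ≤ c) → n < c := by
    intro c hc hmax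
    have h1 := eg c hc _ univ rfl hne hmax
    rw [hVc] at h1
    by_contra hcon
    have h2 : c * (2 * n - 1 - 1) ≤ n * (2 * n - 1 - 1) := Nat.mul_le_mul_right _ (by omega)
    have h3 : n * (2 * n - 1 - 1) < n * (2 * n - 1) := Nat.mul_lt_mul_of_pos_left (by omega) (by omega)
    omega
  have hex : ∃ f k, IsC G univ f k := by
    by_contra hcon
    push Not at hcon
    have := hkey 2 le_rfl (fun f k h => absurd h (hcon f k))
    omega
  obtain ⟨f0, k0, h0⟩ := hex
  obtain ⟨c, ⟨p, hp⟩, hmax⟩ := exists_max (P := fun k => ∃ f, IsC G univ f k)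
    (b := (univ : Finset V).card) ⟨f0, h0⟩ (by rintro k ⟨f, hf⟩; exact hf.le_card)
  have hmax' : ∀ f k, IsC G univ f k → k ≤ c := fun f k h => hmax k ⟨f, h⟩
  have h3 := hp.three
  have hc := hkey c (by omega) hmax'
  have : NeZero c := ⟨by omega⟩
  refine hp.toZC.pan h3 _ univ rfl (fun _ => Finset.mem_univ _) hmax' (by omega) ?_ m hm (by omega)
  rw [hVc]
  obtain ⟨k, rfl⟩ : ∃ k, n = k + 1 := ⟨n - 1, by omega⟩
  have e : 2 * (k + 1) - 1 = 2 * k + 1 := by omega
  rw [e] at he ⊢
  nlinarith

theorem upper {n m : ℕ} (hm3 : 3 ≤ m) (hmn : m ≤ n + 1) (T : SimpleGraph (Fin n))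
    (hT : T.IsTree) : Arrows T m (2 * n - 1) := by
  classical
  intro red
  by_contra hcon
  rw [not_or] at hcon
  obtain ⟨hT', hC⟩ := hcon
  have hn : 2 ≤ n := by omega
  have hes : ¬ ((n - 1 - 1) * Fintype.card (Fin (2 * n - 1)) < 2 * red.edgeFinset.card) := by
    intro hlt
    obtain ⟨f, hf⟩ := ES903.erdos_sos red (n - 1) hlt T hT (by rw [Fintype.card_fin]; omega)
    exact hT' ⟨⟨⟨f, fun {a b} hab => hf a b hab⟩, f.injective⟩⟩
  rw [Fintype.card_fin, ← sum_degrees_eq_twice_card_edges] at hes
  have hdeg : ∀ v, red.degree v + dg redᶜ univ v = 2 * n - 2 := by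
    intro v
    have h1 : dg redᶜ univ v = redᶜ.degree v := by
      unfold dg
      rw [← card_neighborFinset_eq_degree, neighborFinset_eq_filter]
    have h2 := red.degree_compl v
    have h3 := red.degree_lt_card_verts v
    rw [Fintype.card_fin] at h2 h3
    rw [h1]
    omega
  have hsum : ∑ v, red.degree v + ∑ v, dg redᶜ univ v = (2 * n - 1) * (2 * n - 2) := by
    rw [← Finset.sum_add_distrib, Finset.sum_congr rfl (fun v _ => hdeg v), Finset.sum_const,
      Finset.card_univ, Fintype.card_fin, smul_eq_mul]
  obtain ⟨f, hf⟩ := dense redᶜ n hn (by rw [Fintype.card_fin]) (by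
    generalize (∑ v, red.degree v) = X at hes hsum
    generalize (∑ v, dg redᶜ univ v) = Y at hsum
    clear * - hes hsum hn
    obtain ⟨k, rfl⟩ : ∃ k, n = k + 2 := ⟨n - 2, by omega⟩
    have e1 : 2 * (k + 2) - 1 = 2 * k + 3 := by omega
    have e2 : 2 * (k + 2) - 2 = 2 * k + 2 := by omega
    have e3 : k + 2 - 1 - 1 = k := by omega
    rw [e1, e2] at hsum
    rw [e1, e3] at hes
    rw [e1]
    nlinarith) m hm3 hmn
  exact hC (IsC.contained hf)

theorem lower {n m : ℕ} (hm3 : 3 ≤ m) (hodd : Odd m) (T : SimpleGraph (Fin n))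
    (hT : T.IsTree) (N : ℕ) (hN : Arrows T m N) : 2 * n - 1 ≤ N := by
  classical
  by_contra hcon
  set red : SimpleGraph (Fin N) :=
    { Adj := fun i j => i ≠ j ∧ (i.val < n - 1 ↔ j.val < n - 1)
      symm := ⟨fun i j h => ⟨h.1.symm, h.2.symm⟩⟩
      loopless := ⟨fun i h => h.1 rfl⟩ } with hred
  rcases hN red with h | h
  · obtain ⟨⟨f, hf⟩⟩ := h
    have hnpos : 0 < n := by
      rcases Nat.eq_zero_or_pos n with h0 | h0
      · subst h0
        obtain ⟨x⟩ := hT.1.nonempty
        exact x.elim0
      · exact h0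
    have hside : ∀ u v : Fin n, ((f u).val < n - 1 ↔ (f v).val < n - 1) := by
      intro u v
      obtain ⟨w⟩ := hT.1.preconnected u v
      induction w with
      | nil => rfl
      | cons hadj _ ih => exact (f.map_rel hadj).2.trans ih
    have hle : ∃ S : Finset (Fin N), S.card < n ∧ ∀ u, f u ∈ S := by
      by_cases h0 : (f ⟨0, hnpos⟩).val < n - 1
      · refine ⟨univ.filter (fun x => x.val < n - 1), ?_, ?_⟩
        · have : (univ.filter (fun x : Fin N => x.val < n - 1)).card ≤ (range (n - 1)).card := by
            apply Finset.card_le_card_of_injOn (fun x => x.val)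
            · intro x hx
              rw [Finset.mem_coe, Finset.mem_filter] at hx
              rw [Finset.mem_coe, Finset.mem_range]
              exact hx.2
            · intro x _ y _ hxy; exact Fin.ext hxy
          rw [Finset.card_range] at this
          omega
        · intro u
          rw [Finset.mem_filter]
          exact ⟨Finset.mem_univ _, (hside _ u).1 h0⟩
      · refine ⟨univ.filter (fun x => ¬ x.val < n - 1), ?_, ?_⟩
        · have : (univ.filter (fun x : Fin N => ¬ x.val < n - 1)).card ≤
              (Finset.Ico (n - 1) N).card := by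
            apply Finset.card_le_card_of_injOn (fun x => x.val)
            · intro x hx
              rw [Finset.mem_coe, Finset.mem_filter] at hx
              rw [Finset.mem_coe, Finset.mem_Ico]
              exact ⟨not_lt.mp hx.2, x.isLt⟩
            · intro x _ y _ hxy; exact Fin.ext hxy
          rw [Nat.card_Ico] at this
          omega
        · intro u
          rw [Finset.mem_filter]
          exact ⟨Finset.mem_univ _, fun h => h0 ((hside _ u).2 h)⟩
    obtain ⟨S, hS1, hS2⟩ := hle
    have := Finset.card_le_card_of_injOn (s := (univ : Finset (Fin n))) (t := S) (fun u => f u)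
      (fun u _ => hS2 u) (fun u _ v _ h => hf h)
    rw [Finset.card_univ, Fintype.card_fin] at this
    omega
  · have hcol : redᶜ.Colorable 2 := by
      have : redᶜ.Coloring Bool := by
        refine Coloring.mk (fun x => decide (x.val < n - 1)) ?_
        intro u v huv heq
        rw [compl_adj] at huv
        apply huv.2
        refine ⟨huv.1, ?_⟩
        rw [decide_eq_decide] at heq
        exact heq
      have h2 := this.colorable
      rwa [Fintype.card_bool] at h2
    have h2 : (cycleGraph m).Colorable 2 := by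
      obtain ⟨⟨f, hf⟩⟩ := h
      exact hcol.of_hom f
    have h3 := chromaticNumber_cycleGraph_of_odd m (by omega) hodd
    have h4 := h2.chromaticNumber_le
    rw [h3] at h4
    exact absurd h4 (by decide)

/-- For every odd `m ≥ 3`, every `n ≥ m - 1` and every tree `T` on `n` vertices,
`R(T, C_m) = 2 n - 1`. -/
theorem result (n m : ℕ) (hm : 3 ≤ m) (hodd : Odd m) (hmn : m - 1 ≤ n) (T : SimpleGraph (Fin n))
    (hT : T.IsTree) : IsLeast {N : ℕ | 0 < N ∧ Arrows T m N} (2 * n - 1) :=
  ⟨⟨by omega, upper hm (by omega) T hT⟩, fun _ hN => lower hm hodd T hT _ hN.2⟩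

end Pool.Agent.Results.MP_0e31aa_co.TreeOddCycle
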